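import Pool.Agent.Q260.Sok.Main

/-!
# Immanants of Hadamard products of Jacobi-Trudi matrices are not always m-positive

The determinant (the ordinary immanant and the monomial immanant for `η = (1,1,1)`) of the
entrywise product of the Jacobi-Trudi matrices of `(26,26,24)/(2)` and `(35,33,33)/(2,2)` has a
negative coefficient.
-/

namespace Pool.Agent.Results.MP_099a0f_co.NotMonomialPositive

open Finset Pool.Agent.Q260.Sok

/-- Formal power series in the variables `x_i` (index `inl i`) and `y_i` (index `inr i`). -/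
abbrev Ser := MvPowerSeries (ℕ ⊕ ℕ) ℂ

/-- The Jacobi-Trudi matrix `(e_{λ_i - μ_j - i + j}(x))`. -/
noncomputable def JTx {n : ℕ} (lam mu : Fin n → ℕ) : Matrix (Fin n) (Fin n) Ser :=
  JT ℂ (Set.range Sum.inl) lam mu

/-- The Jacobi-Trudi matrix `(e_{ν_i - ρ_j - i + j}(y))`. -/
noncomputable def JTy {n : ℕ} (nu rho : Fin n → ℕ) : Matrix (Fin n) (Fin n) Ser :=
  JT ℂ (Set.range Sum.inr) nu rho

/-- The immanant of `M` for the function `f` on the symmetric group. -/
noncomputable def immanant {n : ℕ} (f : Equiv.Perm (Fin n) → ℂ) (M : Matrix (Fin n) (Fin n) Ser) :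
    Ser :=
  ∑ w : Equiv.Perm (Fin n), f w • ∏ i, M i (w i)

/-- All coefficients are nonnegative real numbers. -/
def MPositive (F : Ser) : Prop :=
  ∀ u, ∃ c : ℝ, 0 ≤ c ∧ MvPowerSeries.coeff u F = (c : ℂ)

/-- `(λ, μ)` is a pair of partitions of length at most `n` with `μ ⊆ λ`. -/
def SkewShape {n : ℕ} (lam mu : Fin n → ℕ) : Prop :=
  Antitone lam ∧ Antitone mu ∧ mu ≤ lam

/-- The assertion of the first question: the immanants for the irreducible characters. -/
def OrdinaryPositivity : Prop :=
  ∀ (n : ℕ) (lam mu nu rho : Fin n → ℕ), SkewShape lam mu → SkewShape nu rho →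
    ∀ (V : Type) [AddCommGroup V] [Module ℂ V] [FiniteDimensional ℂ V]
      (r : Representation ℂ (Equiv.Perm (Fin n)) V), r.IsIrreducible →
      MPositive (immanant r.character (Matrix.hadamard (JTx lam mu) (JTy nu rho)))

/-- `f` is the monomial virtual character `w ↦ ⟨m_η, p_{τ(w)}⟩`: the class function with
Frobenius characteristic `m_η`, that is `∑ f(w) p_{τ(w)} = n! m_η` (in `n` variables). -/
def IsMonomialCharacter {n : ℕ} (eta : n.Partition) (f : Equiv.Perm (Fin n) → ℂ) : Prop :=
  (∀ v w : Equiv.Perm (Fin n), IsConj v w → f v = f w) ∧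
    ∑ w : Equiv.Perm (Fin n), f w • MvPolynomial.psumPart (Fin n) ℂ w.partition =
      (n.factorial : ℂ) • MvPolynomial.msymm (Fin n) ℂ eta

/-- The assertion of the second question: the immanants for the monomial characters. -/
def MonomialPositivity : Prop :=
  ∀ (n : ℕ) (lam mu nu rho : Fin n → ℕ), SkewShape lam mu → SkewShape nu rho →
    ∀ (eta : n.Partition) (f : Equiv.Perm (Fin n) → ℂ), IsMonomialCharacter eta f →
      MPositive (immanant f (Matrix.hadamard (JTx lam mu) (JTy nu rho)))

/-! ### Proof -/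

/-- The sign character. -/
noncomputable def sgn (w : Equiv.Perm (Fin 3)) : ℂ := ((Equiv.Perm.sign w : ℤ) : ℂ)

theorem map_elem (V : Set (ℕ ⊕ ℕ)) (k : ℤ) :
    MvPowerSeries.map (Int.castRingHom ℂ) (elem ℤ V k) = elem ℂ V k := by
  classical
  ext u
  rw [MvPowerSeries.coeff_map, coeff_elem, coeff_elem]
  split_ifs <;> simp

theorem immanant_sgn (M : Matrix (Fin 3) (Fin 3) Ser) : immanant sgn M = M.det := by
  rw [immanant, ← Matrix.det_transpose, Matrix.det_apply]
  refine Finset.sum_congr rfl fun w _ => ?_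
  simp only [Matrix.transpose_apply, sgn]
  rw [Units.smul_def, ← Int.cast_smul_eq_zsmul ℂ]

theorem explicit :
    ∃ u, ∃ c : ℝ, c < 0 ∧ MvPowerSeries.coeff u (Matrix.hadamard
      (JTx (n := 3) ![26, 26, 24] ![2, 0, 0]) (JTy (n := 3) ![35, 33, 33] ![2, 2, 0])).det =
        (c : ℂ) := by
  obtain ⟨u, hu⟩ := det_neg (σ := ℕ ⊕ ℕ) (Set.range Sum.inl) (Set.range Sum.inr)
    ((Finset.range 60).map Function.Embedding.inl) ((Finset.range 60).map Function.Embedding.inr)
    (by
      rw [Set.disjoint_left]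
      rintro _ ⟨a, rfl⟩ ⟨b, hb⟩
      exact absurd hb (by simp))
    (by
      intro s hs
      rw [Finset.mem_map] at hs
      obtain ⟨a, _, rfl⟩ := hs
      exact ⟨a, rfl⟩)
    (by
      intro s hs
      rw [Finset.mem_map] at hs
      obtain ⟨a, _, rfl⟩ := hs
      exact ⟨a, rfl⟩)
    (by simp) (by simp)
  refine ⟨u, ((MvPowerSeries.coeff u (Matrix.det (Matrix.of fun i j : Fin 3 =>
      JT ℤ (Set.range Sum.inl) ![26, 26, 24] ![2, 0, 0] i j *
      JT ℤ (Set.range Sum.inr) ![35, 33, 33] ![2, 2, 0] i j)) : ℤ) : ℝ), by exact_mod_cast hu, ?_⟩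
  have h : (Matrix.hadamard
      (JTx (n := 3) ![26, 26, 24] ![2, 0, 0]) (JTy (n := 3) ![35, 33, 33] ![2, 2, 0])).det =
      MvPowerSeries.map (Int.castRingHom ℂ) (Matrix.det (Matrix.of fun i j : Fin 3 =>
      JT ℤ (Set.range Sum.inl) ![26, 26, 24] ![2, 0, 0] i j *
      JT ℤ (Set.range Sum.inr) ![35, 33, 33] ![2, 2, 0] i j)) := by
    rw [RingHom.map_det]
    congr 1
    ext1 i j
    rw [RingHom.mapMatrix_apply, Matrix.map_apply, Matrix.of_apply, map_mul, Matrix.hadamard_apply]
    simp only [JTx, JTy, JT, map_elem]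
  rw [h, MvPowerSeries.coeff_map]
  simp

theorem shape1 : SkewShape (n := 3) ![26, 26, 24] ![2, 0, 0] := by
  refine ⟨?_, ?_, ?_⟩
  · intro i j hij
    fin_cases i <;> fin_cases j <;> simp_all
  · intro i j hij
    fin_cases i <;> fin_cases j <;> simp_all
  · intro i
    fin_cases i <;> simp

theorem shape2 : SkewShape (n := 3) ![35, 33, 33] ![2, 2, 0] := by
  refine ⟨?_, ?_, ?_⟩
  · intro i j hij
    fin_cases i <;> fin_cases j <;> simp_all
  · intro i j hij
    fin_cases i <;> fin_cases j <;> simp_all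
  · intro i
    fin_cases i <;> simp

theorem not_mpos {F : Ser} {u : (ℕ ⊕ ℕ) →₀ ℕ} {c : ℝ} (hc : c < 0)
    (h : MvPowerSeries.coeff u F = (c : ℂ)) : ¬ MPositive F := by
  intro hF
  obtain ⟨d, hd, hd'⟩ := hF u
  rw [h] at hd'
  have : c = d := by exact_mod_cast hd'
  linarith

/-- The sign representation. -/
noncomputable def signRep : Representation ℂ (Equiv.Perm (Fin 3)) ℂ where
  toFun w := sgn w • LinearMap.id
  map_one' := by
    rw [sgn]
    simp
    rfl
  map_mul' v w := by
    ext
    simp [sgn, mul_comm]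

theorem signRep_character : signRep.character = sgn := by
  funext w
  rw [Representation.character]
  show LinearMap.trace ℂ ℂ (sgn w • LinearMap.id) = sgn w
  rw [map_smul, LinearMap.trace_id]
  simp

theorem signRep_irr : signRep.IsIrreducible := by
  have hne : (⊥ : Subrepresentation signRep) ≠ ⊤ := by
    intro h
    have h1 : (⊥ : Submodule ℂ ℂ) = ⊤ := congrArg Subrepresentation.toSubmodule h
    exact bot_ne_top h1
  have : Nontrivial (Subrepresentation signRep) := ⟨⟨⊥, ⊤, hne⟩⟩
  refine ⟨fun a => ?_⟩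
  rcases eq_bot_or_eq_top a.toSubmodule with h | h
  · left
    exact Subrepresentation.toSubmodule_injective h
  · right
    exact Subrepresentation.toSubmodule_injective h

/-- The partition `(1,1,1)`. -/
def ones : Nat.Partition 3 where
  parts := {1, 1, 1}
  parts_pos := by
    intro i hi
    simp at hi
    omega
  parts_sum := rfl

theorem msymm_ones : MvPolynomial.msymm (Fin 3) ℂ ones =
    MvPolynomial.X 0 * MvPolynomial.X 1 * MvPolynomial.X 2 := by
  have hcard : Multiset.card ({0, 1, 2} : Multiset (Fin 3)) = 3 := rfl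
  have h0 : Nat.Partition.ofSym (⟨{0, 1, 2}, hcard⟩ : Sym (Fin 3) 3) = ones := by
    apply Nat.Partition.ext
    show Multiset.map (fun a => Multiset.count a ({0, 1, 2} : Multiset (Fin 3)))
      (Multiset.dedup {0, 1, 2}) = {1, 1, 1}
    decide
  have huniq : ∀ a : {a : Sym (Fin 3) 3 // Nat.Partition.ofSym a = ones},
      a = ⟨⟨{0, 1, 2}, hcard⟩, h0⟩ := by
    rintro ⟨⟨a, ha⟩, h⟩
    apply Subtype.ext
    apply Subtype.ext
    show a = {0, 1, 2}
    have h1 : a.dedup.map (fun x => a.count x) = {1, 1, 1} := congrArg Nat.Partition.parts h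
    have h2 : Multiset.card a.dedup = 3 := by
      have := congrArg Multiset.card h1
      rw [Multiset.card_map] at this
      rw [this]
      rfl
    have h3 : a.dedup = a := Multiset.eq_of_le_of_card_le (Multiset.dedup_le a) (by rw [ha, h2])
    have h4 : a.Nodup := by
      rw [← h3]
      exact Multiset.nodup_dedup a
    have h5 : (⟨a, h4⟩ : Finset (Fin 3)) = Finset.univ := by
      apply Finset.eq_univ_of_card
      show Multiset.card a = _
      rw [ha]
      simp
    have h6 := congrArg Finset.val h5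
    rw [show a = (⟨a, h4⟩ : Finset (Fin 3)).val from rfl, h5]
    decide
  rw [MvPolynomial.msymm, Fintype.sum_eq_single ⟨⟨{0, 1, 2}, hcard⟩, h0⟩
    (fun b hb => absurd (huniq b) hb)]
  show (Multiset.map MvPolynomial.X ({0, 1, 2} : Multiset (Fin 3))).prod = _
  simp [mul_assoc]

theorem psumPart_of {w : Equiv.Perm (Fin 3)} {s : Multiset ℕ} (h : w.cycleType = s) :
    MvPolynomial.psumPart (Fin 3) ℂ w.partition =
      (s.map (MvPolynomial.psum (Fin 3) ℂ)).prod *
        (MvPolynomial.psum (Fin 3) ℂ 1) ^ (3 - s.sum) := by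
  rw [MvPolynomial.psumPart, Equiv.Perm.parts_partition, Multiset.map_add, Multiset.prod_add,
    Multiset.map_replicate, Multiset.prod_replicate, ← Equiv.Perm.sum_cycleType, h]
  simp

theorem univ_perm : (Finset.univ : Finset (Equiv.Perm (Fin 3))) =
    {1, Equiv.swap 0 1, Equiv.swap 0 2, Equiv.swap 1 2, finRotate 3, (finRotate 3)⁻¹} := by
  decide

theorem isMonomialCharacter_sgn : IsMonomialCharacter ones sgn := by
  constructor
  · intro v w h
    have : Equiv.Perm.sign v = Equiv.Perm.sign w := by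
      obtain ⟨c, hc⟩ := isConj_iff.1 h
      rw [← hc, map_mul, map_mul, map_inv, mul_comm, inv_mul_cancel_left]
    rw [sgn, sgn, this]
  · rw [msymm_ones, univ_perm]
    have c1 : (1 : Equiv.Perm (Fin 3)).cycleType = 0 := Equiv.Perm.cycleType_one
    have c2 : ∀ i j : Fin 3, i ≠ j → (Equiv.swap i j).cycleType = {2} := by
      intro i j hij
      rw [(Equiv.Perm.isCycle_swap hij).cycleType, Equiv.Perm.card_support_swap hij]
    have c3 : (finRotate 3).cycleType = {3} := cycleType_finRotate
    have c4 : (finRotate 3)⁻¹.cycleType = {3} := by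
      rw [Equiv.Perm.cycleType_inv, c3]
    rw [Finset.sum_insert (by decide), Finset.sum_insert (by decide), Finset.sum_insert (by decide),
      Finset.sum_insert (by decide), Finset.sum_insert (by decide), Finset.sum_singleton]
    rw [psumPart_of c1, psumPart_of (c2 0 1 (by decide)), psumPart_of (c2 0 2 (by decide)),
      psumPart_of (c2 1 2 (by decide)), psumPart_of c3, psumPart_of c4]
    have s1 : sgn 1 = 1 := by simp [sgn]
    have s2 : ∀ i j : Fin 3, i ≠ j → sgn (Equiv.swap i j) = -1 := by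
      intro i j hij
      simp [sgn, Equiv.Perm.sign_swap hij]
    have s3 : sgn (finRotate 3) = 1 := by simp [sgn]
    have s4 : sgn (finRotate 3)⁻¹ = 1 := by simp [sgn]
    rw [s1, s2 0 1 (by decide), s2 0 2 (by decide), s2 1 2 (by decide), s3, s4]
    simp only [Multiset.map_zero, Multiset.prod_zero, Multiset.map_singleton,
      Multiset.prod_singleton, Multiset.sum_singleton, Multiset.sum_zero, MvPolynomial.psum,
      Fin.sum_univ_three, Nat.factorial]
    simp only [MvPolynomial.smul_eq_C_mul]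
    have h6 : (MvPolynomial.C (6 : ℂ) : MvPolynomial (Fin 3) ℂ) = 6 := map_ofNat _ 6
    norm_num
    rw [h6]
    ring

/-- Both questions have a negative answer: the determinant of the entrywise product of the
Jacobi-Trudi matrices of `(26,26,24)/(2)` and `(35,33,33)/(2,2)` has a negative coefficient. -/
theorem result :
    (SkewShape (n := 3) ![26, 26, 24] ![2, 0, 0] ∧ SkewShape (n := 3) ![35, 33, 33] ![2, 2, 0] ∧
      ∃ u, ∃ c : ℝ, c < 0 ∧ MvPowerSeries.coeff u (Matrix.hadamard
        (JTx (n := 3) ![26, 26, 24] ![2, 0, 0]) (JTy (n := 3) ![35, 33, 33] ![2, 2, 0])).det =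
          (c : ℂ)) ∧
    ¬ OrdinaryPositivity ∧ ¬ MonomialPositivity := by
  refine ⟨⟨shape1, shape2, explicit⟩, ?_, ?_⟩
  · intro h
    obtain ⟨u, c, hc, hu⟩ := explicit
    refine not_mpos (u := u) hc ?_ (h 3 _ _ _ _ shape1 shape2 ℂ signRep signRep_irr)
    rw [signRep_character, immanant_sgn]
    exact hu
  · intro h
    obtain ⟨u, c, hc, hu⟩ := explicit
    refine not_mpos (u := u) hc ?_ (h 3 _ _ _ _ shape1 shape2 ones sgn isMonomialCharacter_sgn)
    rw [immanant_sgn]
    exact hu

end Pool.Agent.Results.MP_099a0f_co.NotMonomialPositive
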